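import Mathlib

set_option autoImplicit false

namespace Pool.Agent.Results.MP_ca8007_co.SymmetricSpheres

/-!
For every `n ≥ 4` we exhibit a symmetric `n`-sphere with `2n + 4` vertices that is not isomorphic to
the boundary complex of a centrally symmetric `(n+1)`-polytope.

The sphere has the vertices `0, …, 2n + 3`, with antipodal pairs `{2i, 2i+1}`. A set `F` of vertices
is a face if it contains no antipodal pair and both `{i : 2i ∈ F}` and `{i : 2i+1 ∈ F}` meet
`{0, …, 5}` in a face of the six-vertex triangulation of the projective plane.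
-/

open Finset

/-- A finite abstract simplicial complex with vertices in `ℕ`, given as its set of faces: a finite
family of finite sets that contains the empty set and is closed under taking subsets. -/
def IsComplex (K : Set (Finset ℕ)) : Prop :=
  K.Finite ∧ ∅ ∈ K ∧ ∀ F ∈ K, ∀ G : Finset ℕ, G ⊆ F → G ∈ K

/-- The vertices of a complex. -/
def verts (K : Set (Finset ℕ)) : Set ℕ := {v | {v} ∈ K}

/-- The boundary complex of the simplex with vertex set `V`: all proper subsets of `V`. -/
def simplexBoundary (V : Finset ℕ) : Set (Finset ℕ) := {F | F ⊂ V}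

/-- The stellar subdivision of the complex `K` at its nonempty face `σ`, with new vertex `a`: the
faces of `K` containing `σ` are removed, and the join of `a`, the boundary of `σ` and the link of `σ`
is inserted. -/
def stellar (K : Set (Finset ℕ)) (σ : Finset ℕ) (a : ℕ) : Set (Finset ℕ) :=
  {F | F ∈ K ∧ ¬ σ ⊆ F} ∪ {F | ∃ G ∈ K, ¬ σ ⊆ G ∧ G ∪ σ ∈ K ∧ F = insert a G}

/-- `L` arises from the complex `K` by one elementary (stellar) subdivision. -/
def IsElementarySubdivision (K L : Set (Finset ℕ)) : Prop :=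
  IsComplex K ∧ ∃ σ ∈ K, σ.Nonempty ∧ ∃ a, a ∉ verts K ∧ L = stellar K σ a

/-- `S` is a combinatorial `n`-sphere: a complex reachable from the boundary complex of an
`(n+1)`-simplex by finitely many elementary subdivisions and inverses of such. -/
def IsCombinatorialSphere (n : ℕ) (S : Set (Finset ℕ)) : Prop :=
  IsComplex S ∧ ∃ V : Finset ℕ, V.card = n + 2 ∧
    Relation.ReflTransGen (fun K L => IsElementarySubdivision K L ∨ IsElementarySubdivision L K)
      (simplexBoundary V) S

/-- `S` is a symmetric `n`-sphere: a combinatorial `n`-sphere with a simplicial involution `φ`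
such that `φ F` and `F` are disjoint for every face `F`. -/
def IsSymmetricSphere (n : ℕ) (S : Set (Finset ℕ)) : Prop :=
  IsCombinatorialSphere n S ∧
    ∃ φ : ℕ → ℕ, (∀ v ∈ verts S, φ (φ v) = v) ∧ (∀ F ∈ S, F.image φ ∈ S) ∧
      ∀ F ∈ S, F.image φ ∩ F = ∅

/-- `P` is a centrally symmetric `d`-dimensional convex polytope in `ℝ^d`. -/
def IsCSPolytope (d : ℕ) (P : Set (EuclideanSpace ℝ (Fin d))) : Prop :=
  (∃ s : Finset (EuclideanSpace ℝ (Fin d)), P = convexHull ℝ (s : Set (EuclideanSpace ℝ (Fin d)))) ∧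
    affineSpan ℝ P = ⊤ ∧ P = -P

/-- `S` is isomorphic to the boundary complex of `P`: there is a bijection `f` from the vertices of
`S` to the vertices (extreme points) of `P` such that a set `F` of vertices of `S` is a face of `S`
if and only if `f F` is the vertex set of a proper face `G` of `P`. -/
def IsBoundaryComplexOf {d : ℕ} (S : Set (Finset ℕ)) (P : Set (EuclideanSpace ℝ (Fin d))) : Prop :=
  ∃ f : ℕ → EuclideanSpace ℝ (Fin d), Set.BijOn f (verts S) (P.extremePoints ℝ) ∧
    ∀ F : Finset ℕ, (∀ v ∈ F, v ∈ verts S) →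
      (F ∈ S ↔ ∃ G : Set (EuclideanSpace ℝ (Fin d)), IsExposed ℝ P G ∧ G ≠ P ∧
        f '' (F : Set ℕ) = G ∩ P.extremePoints ℝ)

/-- The set of `i < m` such that the vertex `2 i` belongs to `F`. -/
def ev (m : ℕ) (F : Finset ℕ) : Finset ℕ := (range m).filter (fun i => 2 * i ∈ F)
/-- The set of `i < m` such that the vertex `2 i + 1` belongs to `F`. -/
def od (m : ℕ) (F : Finset ℕ) : Finset ℕ := (range m).filter (fun i => 2 * i + 1 ∈ F)
/-- The vertex set `{2 i : i ∈ A} ∪ {2 i + 1 : i ∈ B}`. -/
def enc (A B : Finset ℕ) : Finset ℕ := A.image (fun i => 2 * i) ∪ B.image (fun i => 2 * i + 1)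

/-- The Bier complex of `K`: the deleted join of `K` and its Alexander dual. -/
def bier (m : ℕ) (K : Finset (Finset ℕ)) : Set (Finset ℕ) :=
  {F | F ⊆ range (2 * m) ∧ Disjoint (ev m F) (od m F) ∧ ev m F ∈ K ∧ range m \ od m F ∉ K}

theorem mem_ev {m : ℕ} {F : Finset ℕ} {i : ℕ} : i ∈ ev m F ↔ i < m ∧ 2 * i ∈ F := by
  simp [ev]

theorem mem_od {m : ℕ} {F : Finset ℕ} {i : ℕ} : i ∈ od m F ↔ i < m ∧ 2 * i + 1 ∈ F := by
  simp [od]

theorem mem_enc {A B : Finset ℕ} {v : ℕ} :
    v ∈ enc A B ↔ (∃ i ∈ A, 2 * i = v) ∨ (∃ i ∈ B, 2 * i + 1 = v) := by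
  simp [enc]

theorem even_mem_enc {A B : Finset ℕ} {i : ℕ} : 2 * i ∈ enc A B ↔ i ∈ A := by
  rw [mem_enc]
  constructor
  · rintro (⟨j, hj, h⟩ | ⟨j, hj, h⟩)
    · have : j = i := by omega
      exact this ▸ hj
    · omega
  · intro h; exact Or.inl ⟨i, h, rfl⟩

theorem odd_mem_enc {A B : Finset ℕ} {i : ℕ} : 2 * i + 1 ∈ enc A B ↔ i ∈ B := by
  rw [mem_enc]
  constructor
  · rintro (⟨j, hj, h⟩ | ⟨j, hj, h⟩)
    · omega
    · have : j = i := by omega
      exact this ▸ hj
  · intro h; exact Or.inr ⟨i, h, rfl⟩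

theorem ev_enc {m : ℕ} {A B : Finset ℕ} (hA : A ⊆ range m) : ev m (enc A B) = A := by
  ext i
  rw [mem_ev, even_mem_enc]
  constructor
  · exact fun h => h.2
  · exact fun h => ⟨mem_range.1 (hA h), h⟩

theorem od_enc {m : ℕ} {A B : Finset ℕ} (hB : B ⊆ range m) : od m (enc A B) = B := by
  ext i
  rw [mem_od, odd_mem_enc]
  constructor
  · exact fun h => h.2
  · exact fun h => ⟨mem_range.1 (hB h), h⟩

theorem ev_union {m : ℕ} {F G : Finset ℕ} : ev m (F ∪ G) = ev m F ∪ ev m G := by
  ext i
  simp only [mem_ev, mem_union]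
  tauto

theorem od_union {m : ℕ} {F G : Finset ℕ} : od m (F ∪ G) = od m F ∪ od m G := by
  ext i
  simp only [mem_od, mem_union]
  tauto

theorem enc_subset_range {m : ℕ} {A B : Finset ℕ} (hA : A ⊆ range m) (hB : B ⊆ range m) :
    enc A B ⊆ range (2 * m) := by
  intro v hv
  rw [mem_enc] at hv
  rcases hv with ⟨i, hi, rfl⟩ | ⟨i, hi, rfl⟩
  · have := mem_range.1 (hA hi); rw [mem_range]; omega
  · have := mem_range.1 (hB hi); rw [mem_range]; omega

theorem enc_subset_iff {m : ℕ} {A B F : Finset ℕ} (hA : A ⊆ range m) (hB : B ⊆ range m) :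
    enc A B ⊆ F ↔ A ⊆ ev m F ∧ B ⊆ od m F := by
  constructor
  · intro h
    refine ⟨fun i hi => mem_ev.2 ⟨mem_range.1 (hA hi), h (even_mem_enc.2 hi)⟩,
      fun i hi => mem_od.2 ⟨mem_range.1 (hB hi), h (odd_mem_enc.2 hi)⟩⟩
  · rintro ⟨h1, h2⟩ v hv
    rw [mem_enc] at hv
    rcases hv with ⟨i, hi, rfl⟩ | ⟨i, hi, rfl⟩
    · exact (mem_ev.1 (h1 hi)).2
    · exact (mem_od.1 (h2 hi)).2

theorem ev_mono {m : ℕ} {F G : Finset ℕ} (h : F ⊆ G) : ev m F ⊆ ev m G := by
  intro i hi
  rw [mem_ev] at *
  exact ⟨hi.1, h hi.2⟩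

theorem od_mono {m : ℕ} {F G : Finset ℕ} (h : F ⊆ G) : od m F ⊆ od m G := by
  intro i hi
  rw [mem_od] at *
  exact ⟨hi.1, h hi.2⟩

/-- Downward closed families. -/
def Down (K : Finset (Finset ℕ)) : Prop := ∀ A ∈ K, ∀ B : Finset ℕ, B ⊆ A → B ∈ K

theorem bier_isComplex {m : ℕ} {K : Finset (Finset ℕ)} (h0 : ∅ ∈ K) (hm : range m ∉ K)
    (hK : Down K) : IsComplex (bier m K) := by
  refine ⟨?_, ?_, ?_⟩
  · apply Set.Finite.subset (Finset.finite_toSet (range (2 * m)).powerset)
    intro F hF
    rw [mem_coe, mem_powerset]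
    exact hF.1
  · refine ⟨by simp, ?_, ?_, ?_⟩
    · have : ev m ∅ = ∅ := by ext i; simp [mem_ev]
      rw [this]; simp
    · have : ev m ∅ = ∅ := by ext i; simp [mem_ev]
      rw [this]; exact h0
    · have : od m ∅ = ∅ := by ext i; simp [mem_od]
      rw [this]; simpa using hm
  · rintro F ⟨h1, h2, h3, h4⟩ G hG
    refine ⟨hG.trans h1, ?_, hK _ h3 _ (ev_mono hG), ?_⟩
    · exact Disjoint.mono (ev_mono hG) (od_mono hG) h2
    · intro h
      exact h4 (hK _ h _ (sdiff_subset_sdiff (Subset.refl _) (od_mono hG)))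

/-- The two stellar subdivisions agree. -/
theorem flip_eq {m : ℕ} {K : Finset (Finset ℕ)} (hKm : ∀ A ∈ K, A ⊆ range m)
    (hK : Down K) {σ : Finset ℕ} (hσ : σ ∈ K) (hmax : ∀ A ∈ K, σ ⊆ A → A = σ) :
    stellar (bier m (K.erase σ)) (enc ∅ (range m \ σ)) (2 * m) =
      stellar (bier m K) (enc σ ∅) (2 * m) := by
  have hσm := hKm σ hσ
  have hcm : range m \ σ ⊆ range m := sdiff_subset
  have hem : (∅ : Finset ℕ) ⊆ range m := empty_subset _
  have P1 : ∀ G : Finset ℕ, (G ∈ bier m (K.erase σ) ∧ ¬ enc ∅ (range m \ σ) ⊆ G) ↔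
      (G ∈ bier m K ∧ ¬ enc σ ∅ ⊆ G) := by
    intro G
    rw [enc_subset_iff hem hcm, enc_subset_iff hσm hem]
    simp only [bier, Set.mem_ofPred_eq, mem_erase]
    constructor
    · rintro ⟨⟨h1, h2, ⟨h3, h4⟩, h5⟩, h6⟩
      have h6' : ¬ (range m \ σ ⊆ od m G) := fun h => h6 ⟨empty_subset _, h⟩
      refine ⟨⟨h1, h2, h4, ?_⟩, ?_⟩
      · intro h
        apply h5
        refine ⟨?_, h⟩
        intro heq
        apply h6'
        intro i hi
        rw [mem_sdiff] at hi
        by_contra hcon
        apply hi.2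
        rw [← heq, mem_sdiff]
        exact ⟨hi.1, hcon⟩
      · rintro ⟨h7, -⟩
        exact h3 (hmax _ h4 h7)
    · rintro ⟨⟨h1, h2, h3, h4⟩, h5⟩
      have h5' : ¬ (σ ⊆ ev m G) := fun h => h5 ⟨h, empty_subset _⟩
      refine ⟨⟨h1, h2, ⟨?_, h3⟩, fun h => h4 h.2⟩, ?_⟩
      · intro heq
        exact h5' (heq ▸ Subset.refl _)
      · rintro ⟨-, h7⟩
        apply h4
        apply hK σ hσ
        intro i hi
        rw [mem_sdiff] at hi
        by_contra hcon
        exact hi.2 (h7 (mem_sdiff.2 ⟨hi.1, hcon⟩))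
  have P2 : ∀ G : Finset ℕ, (G ∈ bier m (K.erase σ) ∧ ¬ enc ∅ (range m \ σ) ⊆ G ∧
      G ∪ enc ∅ (range m \ σ) ∈ bier m (K.erase σ)) ↔
      (G ∈ bier m K ∧ ¬ enc σ ∅ ⊆ G ∧ G ∪ enc σ ∅ ∈ bier m K) := by
    intro G
    rw [← and_assoc, ← and_assoc, P1 G]
    refine and_congr_right ?_
    rintro hG
    have hG' := (P1 G).2 hG
    obtain ⟨⟨h1, h2, h3, h4⟩, h5⟩ := hG
    obtain ⟨⟨-, -, k3, k4⟩, k5⟩ := hG'
    simp only [bier, Set.mem_ofPred_eq, ev_union, od_union, ev_enc hem, ev_enc hσm, od_enc hem,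
      od_enc hcm, union_empty]
    constructor
    · rintro ⟨q1, q2, q3, q4⟩
      have hsub : ev m G ⊆ σ := by
        intro i hi
        by_contra hcon
        rw [disjoint_left] at q2
        apply q2 hi
        rw [mem_union, mem_sdiff]
        exact Or.inr ⟨(mem_filter.1 hi).1, hcon⟩
      have hdis : Disjoint σ (od m G) := by
        by_contra hcon
        apply q4
        rw [mem_erase]
        rw [not_disjoint_iff] at hcon
        obtain ⟨i, hi1, hi2⟩ := hcon
        refine ⟨?_, hK σ hσ _ ?_⟩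
        · intro heq
          have : i ∈ range m \ (od m G ∪ range m \ σ) := by rw [heq]; exact hi1
          rw [mem_sdiff, mem_union] at this
          exact this.2 (Or.inl hi2)
        · intro j hj
          rw [mem_sdiff, mem_union, mem_sdiff] at hj
          by_contra hcon
          exact hj.2 (Or.inr ⟨hj.1, hcon⟩)
      refine ⟨union_subset h1 (enc_subset_range hσm hem), ?_, ?_, h4⟩
      · rw [disjoint_union_left]
        exact ⟨h2, hdis⟩
      · rw [union_eq_right.2 hsub]; exact hσ
    · rintro ⟨q1, q2, q3, q4⟩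
      have heq : ev m G ∪ σ = σ := hmax _ q3 subset_union_right
      have hsub : ev m G ⊆ σ := by rw [← heq]; exact subset_union_left
      rw [heq] at q2
      refine ⟨union_subset h1 (enc_subset_range hem hcm), ?_, k3, ?_⟩
      · rw [disjoint_union_right]
        refine ⟨h2, ?_⟩
        rw [disjoint_left]
        intro i hi hi2
        rw [mem_sdiff] at hi2
        exact hi2.2 (hsub hi)
      · rw [mem_erase]
        rintro ⟨r1, -⟩
        apply r1
        ext i
        rw [mem_sdiff, mem_union, mem_sdiff]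
        constructor
        · rintro ⟨s1, s2⟩
          by_contra hcon
          exact s2 (Or.inr ⟨s1, hcon⟩)
        · intro hi
          refine ⟨hσm hi, ?_⟩
          rintro (s | s)
          · exact (disjoint_left.1 q2 hi) s
          · exact s.2 hi
  ext F
  simp only [stellar, Set.mem_union, Set.mem_ofPred_eq]
  apply or_congr (P1 F)
  constructor
  · rintro ⟨G, g1, g2, g3, rfl⟩
    obtain ⟨h1, h2, h3⟩ := (P2 G).1 ⟨g1, g2, g3⟩
    exact ⟨G, h1, h2, h3, rfl⟩
  · rintro ⟨G, g1, g2, g3, rfl⟩
    obtain ⟨h1, h2, h3⟩ := (P2 G).2 ⟨g1, g2, g3⟩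
    exact ⟨G, h1, h2, h3, rfl⟩

/-- Reachability by elementary subdivisions and their inverses. -/
abbrev Reach : Set (Finset ℕ) → Set (Finset ℕ) → Prop :=
  Relation.ReflTransGen (fun K L => IsElementarySubdivision K L ∨ IsElementarySubdivision L K)

theorem bier_notMem {m : ℕ} {K : Finset (Finset ℕ)} : 2 * m ∉ verts (bier m K) := by
  rintro ⟨h, -⟩
  have := h (mem_singleton_self _)
  simp at this

theorem enc_mem_bier_left {m : ℕ} {K : Finset (Finset ℕ)} (hm : range m ∉ K)
    {σ : Finset ℕ} (hσ : σ ∈ K) (hσm : σ ⊆ range m) : enc σ ∅ ∈ bier m K := by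
  have hem : (∅ : Finset ℕ) ⊆ range m := empty_subset _
  refine ⟨enc_subset_range hσm hem, ?_, ?_, ?_⟩
  · rw [od_enc hem]; exact disjoint_empty_right _
  · rw [ev_enc hσm]; exact hσ
  · rw [od_enc hem]; simpa using hm

theorem enc_mem_bier_right {m : ℕ} {K : Finset (Finset ℕ)} (h0 : ∅ ∈ K)
    {τ : Finset ℕ} (hτ : range m \ τ ∉ K) (hτm : τ ⊆ range m) : enc ∅ τ ∈ bier m K := by
  have hem : (∅ : Finset ℕ) ⊆ range m := empty_subset _
  refine ⟨enc_subset_range hem hτm, ?_, ?_, ?_⟩
  · rw [ev_enc hem]; exact disjoint_empty_left _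
  · rw [ev_enc hem]; exact h0
  · rw [od_enc hτm]; exact hτ

theorem bier_reach (m : ℕ) : ∀ (N : ℕ) (K : Finset (Finset ℕ)), K.card = N → ∅ ∈ K →
    range m ∉ K → (∀ A ∈ K, A ⊆ range m) → Down K →
    Reach (simplexBoundary ((range m).image (fun i => 2 * i + 1))) (bier m K) := by
  intro N
  induction N with
  | zero =>
    intro K hN h0
    rw [Finset.card_eq_zero] at hN
    subst hN
    simp at h0
  | succ N ih =>
    intro K hN h0 hm hKm hK
    by_cases hex : ∃ A ∈ K, A ≠ ∅
    · obtain ⟨A0, hA0, hA0'⟩ := hex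
      obtain ⟨σ, hσ, hσmax⟩ := Finset.exists_max_image K (fun A => A.card) ⟨A0, hA0⟩
      have hσne : σ ≠ ∅ := by
        intro h
        have := hσmax A0 hA0
        rw [h, Finset.card_empty, Nat.le_zero, Finset.card_eq_zero] at this
        exact hA0' this
      have hmax : ∀ A ∈ K, σ ⊆ A → A = σ := fun A hA hs =>
        (Finset.eq_of_subset_of_card_le hs (hσmax A hA)).symm
      have hσm := hKm σ hσ
      have hK1 : Down (K.erase σ) := by
        intro A hA B hB
        rw [mem_erase] at hA ⊢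
        refine ⟨?_, hK A hA.2 B hB⟩
        intro h
        exact hA.1 (hmax A hA.2 (h ▸ hB))
      have h01 : ∅ ∈ K.erase σ := mem_erase.2 ⟨hσne.symm, h0⟩
      have hm1 : range m ∉ K.erase σ := fun h => hm (mem_erase.1 h).2
      have hKm1 : ∀ A ∈ K.erase σ, A ⊆ range m := fun A hA => hKm A (mem_erase.1 hA).2
      have hcard : (K.erase σ).card = N := by
        rw [card_erase_of_mem hσ, hN]; rfl
      have hrec := ih (K.erase σ) hcard h01 hm1 hKm1 hK1
      have hstep1 : IsElementarySubdivision (bier m (K.erase σ))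
          (stellar (bier m (K.erase σ)) (enc ∅ (range m \ σ)) (2 * m)) := by
        refine ⟨bier_isComplex h01 hm1 hK1, enc ∅ (range m \ σ), ?_, ?_, 2 * m, bier_notMem, rfl⟩
        · apply enc_mem_bier_right h01 _ sdiff_subset
          rw [sdiff_sdiff_right_self, inf_eq_inter, inter_eq_right.2 hσm]
          simp
        · rw [Finset.nonempty_iff_ne_empty]
          intro h
          have h2 : range m \ σ = ∅ := by
            rw [← od_enc (m := m) (A := ∅) (B := range m \ σ) sdiff_subset, h]
            ext i; simp [mem_od]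
          rw [sdiff_eq_empty_iff_subset] at h2
          exact hm (hK σ hσ _ h2)
      have hstep2 : IsElementarySubdivision (bier m K)
          (stellar (bier m K) (enc σ ∅) (2 * m)) := by
        refine ⟨bier_isComplex h0 hm hK, enc σ ∅, enc_mem_bier_left hm hσ hσm, ?_, 2 * m,
          bier_notMem, rfl⟩
        obtain ⟨i, hi⟩ := Finset.nonempty_iff_ne_empty.2 hσne
        exact ⟨2 * i, even_mem_enc.2 hi⟩
      rw [← flip_eq hKm hK hσ hmax] at hstep2
      exact (hrec.tail (Or.inl hstep1)).tail (Or.inr hstep2)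
    · push Not at hex
      have hbier : bier m K = simplexBoundary ((range m).image (fun i => 2 * i + 1)) := by
        ext F
        simp only [bier, simplexBoundary, Set.mem_ofPred_eq]
        constructor
        · rintro ⟨h1, h2, h3, h4⟩
          rw [Finset.ssubset_iff_subset_ne]
          have h3' := hex _ h3
          refine ⟨?_, ?_⟩
          · intro v hv
            rw [mem_image]
            have hv' := mem_range.1 (h1 hv)
            rcases Nat.even_or_odd' v with ⟨i, hi | hi⟩
            · exfalso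
              have : i ∈ ev m F := mem_ev.2 ⟨by omega, hi ▸ hv⟩
              rw [h3'] at this
              simp at this
            · exact ⟨i, by rw [mem_range]; omega, hi.symm⟩
          · intro h
            apply h4
            have : range m \ od m F = ∅ := by
              rw [sdiff_eq_empty_iff_subset]
              intro i hi
              rw [mem_od, h]
              exact ⟨mem_range.1 hi, mem_image.2 ⟨i, hi, rfl⟩⟩
            rw [this]; exact h0
        · intro h
          rw [Finset.ssubset_iff_subset_ne] at h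
          obtain ⟨h1, h2⟩ := h
          have hev : ev m F = ∅ := by
            ext i
            simp only [mem_ev, notMem_empty, iff_false]
            rintro ⟨-, hi⟩
            have := h1 hi
            rw [mem_image] at this
            obtain ⟨j, -, hj⟩ := this
            omega
          refine ⟨?_, ?_, ?_, ?_⟩
          · intro v hv
            have := h1 hv
            rw [mem_image] at this
            obtain ⟨j, hj, rfl⟩ := this
            rw [mem_range] at *
            omega
          · rw [hev]; exact disjoint_empty_left _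
          · rw [hev]; exact h0
          · intro h3
            have h4 := hex _ h3
            rw [sdiff_eq_empty_iff_subset] at h4
            apply h2
            apply Subset.antisymm h1
            intro v hv
            rw [mem_image] at hv
            obtain ⟨j, hj, rfl⟩ := hv
            exact (mem_od.1 (h4 hj)).2
      rw [hbier]


/-- The ten triangles of the six-vertex projective plane. -/
def tri : Finset (Finset ℕ) :=
  {{0, 1, 2}, {0, 2, 3}, {0, 3, 4}, {0, 4, 5}, {0, 1, 5}, {1, 2, 4}, {2, 3, 5}, {1, 3, 4},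
    {2, 4, 5}, {1, 3, 5}}

/-- The six-vertex projective plane. -/
def rp : Finset (Finset ℕ) := (range 6).powerset.filter (fun A => ∃ t ∈ tri, A ⊆ t)

/-- The join of the six-vertex projective plane with the full simplex on the vertices
`6, …, m - 1`. -/
def fam (m : ℕ) : Finset (Finset ℕ) := (range m).powerset.filter (fun A => A ∩ range 6 ∈ rp)

theorem mem_rp {A : Finset ℕ} : A ∈ rp ↔ A ⊆ range 6 ∧ ∃ t ∈ tri, A ⊆ t := by
  simp [rp]

theorem mem_fam {m : ℕ} {A : Finset ℕ} : A ∈ fam m ↔ A ⊆ range m ∧ A ∩ range 6 ∈ rp := by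
  simp [fam]

theorem rp_down : Down rp := by
  intro A hA B hB
  rw [mem_rp] at *
  obtain ⟨h1, t, ht, h2⟩ := hA
  exact ⟨hB.trans h1, t, ht, hB.trans h2⟩

theorem rp_selfdual : ∀ A ∈ (range 6).powerset, (A ∈ rp ↔ range 6 \ A ∉ rp) := by
  decide +kernel

theorem rp_edges : ∀ i ∈ range 6, ∀ j ∈ range 6, ({i, j} : Finset ℕ) ∈ rp := by
  decide +kernel

theorem fam_down (m : ℕ) : Down (fam m) := by
  intro A hA B hB
  rw [mem_fam] at *
  exact ⟨hB.trans hA.1, rp_down _ hA.2 _ (inter_subset_inter_right hB)⟩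

theorem empty_mem_rp : (∅ : Finset ℕ) ∈ rp := by decide +kernel

theorem range_notMem_rp : range 6 ∉ rp := by decide +kernel

theorem fam_compl {m : ℕ} (hm : 6 ≤ m) {B : Finset ℕ} (hB : B ⊆ range m) :
    range m \ B ∉ fam m ↔ B ∈ fam m := by
  rw [mem_fam, mem_fam]
  have h1 : (range m \ B) ∩ range 6 = range 6 \ (B ∩ range 6) := by
    ext i
    simp only [mem_inter, mem_sdiff, mem_range]
    constructor
    · rintro ⟨⟨a, b⟩, c⟩
      exact ⟨c, fun h => b h.1⟩
    · rintro ⟨a, b⟩
      exact ⟨⟨by omega, fun h => b ⟨h, a⟩⟩, a⟩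
  have h2 := rp_selfdual (B ∩ range 6) (by rw [mem_powerset]; exact inter_subset_right)
  rw [h1]
  constructor
  · intro h
    refine ⟨hB, h2.2 ?_⟩
    intro h3
    exact h ⟨sdiff_subset, h3⟩
  · rintro ⟨-, h3⟩ ⟨-, h4⟩
    exact (h2.1 h3) h4

/-- The example: the deleted join of the family `fam m` with itself, that is, the join of the deleted
join of the six-vertex projective plane with itself and of the boundary complex of a cross-polytope of
dimension `m - 6`. -/
def sph (m : ℕ) : Set (Finset ℕ) := bier m (fam m)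

theorem mem_sph {m : ℕ} (hm : 6 ≤ m) {F : Finset ℕ} : F ∈ sph m ↔
    F ⊆ range (2 * m) ∧ Disjoint (ev m F) (od m F) ∧ ev m F ∈ fam m ∧ od m F ∈ fam m := by
  have : od m F ⊆ range m := filter_subset _ _
  rw [sph, bier, Set.mem_ofPred_eq, fam_compl hm this]

theorem sph_sphere {n : ℕ} (hn : 4 ≤ n) : IsCombinatorialSphere n (sph (n + 2)) := by
  have h0 : ∅ ∈ fam (n + 2) := by
    rw [mem_fam]
    refine ⟨empty_subset _, ?_⟩
    rw [empty_inter]
    exact empty_mem_rp
  have h1 : range (n + 2) ∉ fam (n + 2) := by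
    rw [mem_fam]
    rintro ⟨-, h⟩
    rw [inter_eq_right.2 (range_subset_range.2 (by omega))] at h
    exact range_notMem_rp h
  refine ⟨bier_isComplex h0 h1 (fam_down _), (range (n + 2)).image (fun i => 2 * i + 1), ?_, ?_⟩
  · rw [card_image_of_injective, card_range]
    intro a b hab
    simpa using hab
  · exact bier_reach (n + 2) _ (fam (n + 2)) rfl h0 h1 (fun A hA => (mem_fam.1 hA).1)
      (fam_down _)

/-- The antipodal map. -/
def anti (v : ℕ) : ℕ := if v % 2 = 0 then v + 1 else v - 1

theorem anti_even (i : ℕ) : anti (2 * i) = 2 * i + 1 := by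
  rw [anti, if_pos (by omega)]

theorem anti_odd (i : ℕ) : anti (2 * i + 1) = 2 * i := by
  rw [anti, if_neg (by omega)]; omega

theorem anti_anti (v : ℕ) : anti (anti v) = v := by
  rcases Nat.even_or_odd' v with ⟨i, rfl | rfl⟩
  · rw [anti_even, anti_odd]
  · rw [anti_odd, anti_even]

theorem mem_image_anti {F : Finset ℕ} {v : ℕ} : v ∈ F.image anti ↔ anti v ∈ F := by
  rw [mem_image]
  constructor
  · rintro ⟨w, hw, rfl⟩
    rw [anti_anti]; exact hw
  · intro h
    exact ⟨anti v, h, anti_anti v⟩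

theorem ev_anti {m : ℕ} {F : Finset ℕ} : ev m (F.image anti) = od m F := by
  ext i
  rw [mem_ev, mem_od, mem_image_anti, anti_even]

theorem od_anti {m : ℕ} {F : Finset ℕ} : od m (F.image anti) = ev m F := by
  ext i
  rw [mem_ev, mem_od, mem_image_anti, anti_odd]

theorem pair_mem_fam {m i j : ℕ} (hi : i < m) (hj : j < m) : ({i, j} : Finset ℕ) ∈ fam m := by
  rw [mem_fam]
  refine ⟨?_, ?_⟩
  · intro k hk
    rw [mem_insert, mem_singleton] at hk
    rw [mem_range]
    rcases hk with rfl | rfl <;> assumption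
  · by_cases h1 : i < 6
    · by_cases h2 : j < 6
      · rw [inter_eq_left.2]
        · exact rp_edges i (mem_range.2 h1) j (mem_range.2 h2)
        · intro k hk
          rw [mem_insert, mem_singleton] at hk
          rw [mem_range]
          rcases hk with rfl | rfl <;> assumption
      · apply rp_down _ (rp_edges i (mem_range.2 h1) i (mem_range.2 h1))
        intro k hk
        rw [mem_inter, mem_insert, mem_singleton, mem_range] at hk
        rw [mem_insert, mem_singleton]
        omega
    · by_cases h2 : j < 6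
      · apply rp_down _ (rp_edges j (mem_range.2 h2) j (mem_range.2 h2))
        intro k hk
        rw [mem_inter, mem_insert, mem_singleton, mem_range] at hk
        rw [mem_insert, mem_singleton]
        omega
      · apply rp_down _ empty_mem_rp
        intro k hk
        rw [mem_inter, mem_insert, mem_singleton, mem_range] at hk
        omega

theorem edge_mem_sph {m : ℕ} (hm : 6 ≤ m) {v w : ℕ} (hv : v < 2 * m) (hw : w < 2 * m)
    (hvw : w ≠ anti v) : ({v, w} : Finset ℕ) ∈ sph m := by
  have key : ∀ i j : ℕ, i < m → j < m → ∀ A : Finset ℕ, A ⊆ {i, j} → A ∈ fam m :=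
    fun i j hi hj A hA => fam_down m _ (pair_mem_fam hi hj) A hA
  rw [mem_sph hm]
  refine ⟨?_, ?_, ?_, ?_⟩
  · intro k hk
    rw [mem_insert, mem_singleton] at hk
    rw [mem_range]
    rcases hk with rfl | rfl <;> assumption
  · rw [disjoint_left]
    intro i hi hi'
    rw [mem_ev, mem_insert, mem_singleton] at hi
    rw [mem_od, mem_insert, mem_singleton] at hi'
    obtain ⟨-, hi⟩ := hi
    obtain ⟨-, hi'⟩ := hi'
    rcases hi with rfl | rfl
    · rw [anti_even] at hvw
      omega
    · rcases hi' with rfl | h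
      · rw [anti_odd] at hvw
        omega
      · omega
  · apply key (v / 2) (w / 2) (by omega) (by omega)
    intro i hi
    rw [mem_ev, mem_insert, mem_singleton] at hi
    rw [mem_insert, mem_singleton]
    omega
  · apply key (v / 2) (w / 2) (by omega) (by omega)
    intro i hi
    rw [mem_od, mem_insert, mem_singleton] at hi
    rw [mem_insert, mem_singleton]
    omega

theorem anti_ne (v : ℕ) : v ≠ anti v := by
  rcases Nat.even_or_odd' v with ⟨i, rfl | rfl⟩
  · rw [anti_even]; omega
  · rw [anti_odd]; omega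

theorem verts_sph {m : ℕ} (hm : 6 ≤ m) : verts (sph m) = Set.Iio (2 * m) := by
  ext v
  rw [Set.mem_Iio, verts, Set.mem_ofPred_eq]
  constructor
  · intro h
    rw [mem_sph hm] at h
    exact mem_range.1 (h.1 (mem_singleton_self v))
  · intro h
    have := edge_mem_sph hm h h (anti_ne v)
    rwa [pair_eq_singleton] at this

theorem sph_symmetric {n : ℕ} (hn : 4 ≤ n) : IsSymmetricSphere n (sph (n + 2)) := by
  have hm : 6 ≤ n + 2 := by omega
  refine ⟨sph_sphere hn, anti, fun v _ => anti_anti v, ?_, ?_⟩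
  · intro F hF
    rw [mem_sph hm] at *
    obtain ⟨h1, h2, h3, h4⟩ := hF
    rw [ev_anti, od_anti]
    refine ⟨?_, h2.symm, h4, h3⟩
    intro v hv
    rw [mem_image_anti] at hv
    have := mem_range.1 (h1 hv)
    rw [mem_range]
    rcases Nat.even_or_odd' v with ⟨i, rfl | rfl⟩
    · rw [anti_even] at this; omega
    · rw [anti_odd] at this; omega
  · intro F hF
    rw [mem_sph hm] at hF
    obtain ⟨h1, h2, h3, h4⟩ := hF
    rw [eq_empty_iff_forall_notMem]
    intro v hv
    rw [mem_inter, mem_image_anti] at hv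
    obtain ⟨a, b⟩ := hv
    rw [disjoint_left] at h2
    have hvr := mem_range.1 (h1 b)
    rcases Nat.even_or_odd' v with ⟨i, rfl | rfl⟩
    · rw [anti_even] at a
      exact h2 (mem_ev.2 ⟨by omega, b⟩) (mem_od.2 ⟨by omega, a⟩)
    · rw [anti_odd] at a
      exact h2 (mem_ev.2 ⟨by omega, a⟩) (mem_od.2 ⟨by omega, b⟩)


section polytope

variable {d : ℕ} {P : Set (EuclideanSpace ℝ (Fin d))}

theorem neg_mem_of_cs (hP : P = -P) {x : EuclideanSpace ℝ (Fin d)} (hx : x ∈ P) : -x ∈ P := by
  rw [hP] at hx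
  exact hx

theorem neg_mem_extreme (hP : P = -P) {x : EuclideanSpace ℝ (Fin d)}
    (hx : x ∈ P.extremePoints ℝ) : -x ∈ P.extremePoints ℝ := by
  rw [mem_extremePoints] at *
  obtain ⟨h1, h2⟩ := hx
  refine ⟨neg_mem_of_cs hP h1, ?_⟩
  intro x1 hx1 x2 hx2 h
  have h3 := h2 (-x1) (neg_mem_of_cs hP hx1) (-x2) (neg_mem_of_cs hP hx2) ?_
  · exact ⟨by rw [← h3.1, neg_neg], by rw [← h3.2, neg_neg]⟩
  · obtain ⟨a, b, ha, hb, hab, h4⟩ := h
    refine ⟨a, b, ha, hb, hab, ?_⟩
    rw [smul_neg, smul_neg, ← neg_add, h4, neg_neg]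

theorem zero_notMem_extreme (hP : P = -P) {y : EuclideanSpace ℝ (Fin d)} (hy : y ∈ P)
    (hy0 : y ≠ 0) : (0 : EuclideanSpace ℝ (Fin d)) ∉ P.extremePoints ℝ := by
  intro h
  rw [mem_extremePoints] at h
  apply hy0
  refine (h.2 y hy (-y) (neg_mem_of_cs hP hy) ?_).1
  refine ⟨1 / 2, 1 / 2, by norm_num, by norm_num, by norm_num, ?_⟩
  rw [smul_neg, add_neg_cancel]

/-- A proper exposed face of a symmetric set contains no antipodal pair. -/
theorem no_antipodal (hP : P = -P) {G : Set (EuclideanSpace ℝ (Fin d))} (hG : IsExposed ℝ P G)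
    (hGP : G ≠ P) {x : EuclideanSpace ℝ (Fin d)} (h1 : x ∈ G) (h2 : -x ∈ G) : False := by
  obtain ⟨l, hl⟩ := hG ⟨x, h1⟩
  have h1' := h1
  have h2' := h2
  rw [hl] at h1 h2
  obtain ⟨hx, hx2⟩ := h1
  obtain ⟨hnx, hnx2⟩ := h2
  have e1 := hx2 (-x) hnx
  have e2 := hnx2 x hx
  rw [map_neg] at e1 e2
  have e3 : l x = 0 := by linarith
  apply hGP
  rw [hl]
  apply Set.Subset.antisymm
  · intro y hy; exact hy.1
  · intro y hy
    refine ⟨hy, fun z hz => ?_⟩
    have f1 := hx2 z hz
    have f2 := hx2 (-y) (neg_mem_of_cs hP hy)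
    rw [map_neg] at f2
    linarith

/-- The functional supporting a face. -/
theorem exists_functional (hP : P = -P) {S : Set (Finset ℕ)}
    {f : ℕ → EuclideanSpace ℝ (Fin d)} (hf : Set.BijOn f (verts S) (P.extremePoints ℝ))
    (hface : ∀ F : Finset ℕ, (∀ v ∈ F, v ∈ verts S) →
      (F ∈ S ↔ ∃ G : Set (EuclideanSpace ℝ (Fin d)), IsExposed ℝ P G ∧ G ≠ P ∧
        f '' (F : Set ℕ) = G ∩ P.extremePoints ℝ))
    {F : Finset ℕ} (hF : F ∈ S) (hFv : ∀ v ∈ F, v ∈ verts S) (hne : F.Nonempty) :
    ∃ (l : EuclideanSpace ℝ (Fin d) →ₗ[ℝ] ℝ), (∀ v ∈ F, l (f v) = 1) ∧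
      (∀ v ∈ verts S, v ∉ F → l (f v) < 1) := by
  obtain ⟨G, hG, hGP, hGF⟩ := (hface F hFv).1 hF
  obtain ⟨v0, hv0⟩ := hne
  have hmemG : ∀ v ∈ F, f v ∈ G := by
    intro v hv
    have : f v ∈ f '' (F : Set ℕ) := ⟨v, hv, rfl⟩
    rw [hGF] at this
    exact this.1
  obtain ⟨l, hl⟩ := hG ⟨f v0, hmemG v0 hv0⟩
  have hmax : ∀ v ∈ F, ∀ y ∈ P, l y ≤ l (f v) := by
    intro v hv
    have := hmemG v hv
    rw [hl] at this
    exact this.2
  have hmemP : ∀ v ∈ verts S, f v ∈ P := fun v hv => (extremePoints_subset (hf.mapsTo hv))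
  set c := l (f v0) with hc
  have hceq : ∀ v ∈ F, l (f v) = c := by
    intro v hv
    apply le_antisymm
    · exact hmax v0 hv0 _ (hmemP v (hFv v hv))
    · exact hmax v hv _ (hmemP v0 (hFv v0 hv0))
  have hlt : ∀ v ∈ verts S, v ∉ F → l (f v) < c := by
    intro v hv hvF
    by_contra hcon
    push Not at hcon
    have h1 : f v ∈ G := by
      rw [hl]
      exact ⟨hmemP v hv, fun y hy => (hmax v0 hv0 y hy).trans hcon⟩
    have h2 : f v ∈ f '' (F : Set ℕ) := by
      rw [hGF]
      exact ⟨h1, hf.mapsTo hv⟩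
    obtain ⟨w, hw, hwv⟩ := h2
    have := hf.injOn (hFv w hw) hv hwv
    exact hvF (this ▸ hw)
  have hcpos : 0 < c := by
    have h1 : -c ≤ c := by
      have := hmax v0 hv0 _ (neg_mem_of_cs hP (hmemP v0 (hFv v0 hv0)))
      rw [map_neg] at this
      exact this
    rcases lt_or_eq_of_le (show 0 ≤ c by linarith) with h | h
    · exact h
    · exfalso
      apply no_antipodal hP hG hGP (hmemG v0 hv0)
      rw [hl]
      refine ⟨neg_mem_of_cs hP (hmemP v0 (hFv v0 hv0)), fun y hy => ?_⟩
      rw [map_neg, ← hc]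
      have := hmax v0 hv0 y hy
      rw [← hc] at this
      linarith
  refine ⟨c⁻¹ • l.toLinearMap, ?_, ?_⟩
  · intro v hv
    simp only [LinearMap.smul_apply, ContinuousLinearMap.coe_coe, smul_eq_mul]
    rw [hceq v hv]
    exact inv_mul_cancel₀ hcpos.ne'
  · intro v hv hvF
    simp only [LinearMap.smul_apply, ContinuousLinearMap.coe_coe, smul_eq_mul]
    rw [inv_mul_lt_iff₀ hcpos, mul_one]
    exact hlt v hv hvF

/-- Antipodal vertices correspond. -/
theorem anti_neg {m : ℕ} (hm : 6 ≤ m) (hP : P = -P)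
    {f : ℕ → EuclideanSpace ℝ (Fin d)} (hf : Set.BijOn f (verts (sph m)) (P.extremePoints ℝ))
    (hface : ∀ F : Finset ℕ, (∀ v ∈ F, v ∈ verts (sph m)) →
      (F ∈ sph m ↔ ∃ G : Set (EuclideanSpace ℝ (Fin d)), IsExposed ℝ P G ∧ G ≠ P ∧
        f '' (F : Set ℕ) = G ∩ P.extremePoints ℝ))
    {v : ℕ} (hv : v < 2 * m) : f (anti v) = -f v := by
  have hvS : v ∈ verts (sph m) := by rw [verts_sph hm]; exact hv
  obtain ⟨w, hw, hwv⟩ := hf.surjOn (neg_mem_extreme hP (hf.mapsTo hvS))
  have hw' : w < 2 * m := by rw [verts_sph hm] at hw; exact hw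
  by_cases h : w = anti v
  · rw [← h, hwv]
  · exfalso
    have h1 := edge_mem_sph hm hv hw' h
    have h2 : ∀ u ∈ ({v, w} : Finset ℕ), u ∈ verts (sph m) := by
      intro u hu
      rw [mem_insert, mem_singleton] at hu
      rcases hu with rfl | rfl <;> assumption
    obtain ⟨G, hG, hGP, hGF⟩ := (hface _ h2).1 h1
    have h3 : f v ∈ f '' (({v, w} : Finset ℕ) : Set ℕ) := ⟨v, by simp, rfl⟩
    have h4 : f w ∈ f '' (({v, w} : Finset ℕ) : Set ℕ) := ⟨w, by simp, rfl⟩
    rw [hGF] at h3 h4
    rw [hwv] at h4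
    exact no_antipodal hP hG hGP h3.1 h4.1

end polytope

/-- Combinatorial properties of the ten triangles. -/
theorem tri_pair : ∀ i ∈ range 6, ∀ j ∈ range 6, ∃ t ∈ tri, i ∉ t ∧ j ∉ t := by
  decide +kernel

theorem tri_sub : ∀ t ∈ tri, t ⊆ range 6 := by
  decide +kernel

theorem tri_count : ∀ i ∈ range 6, (∑ t ∈ tri, (if i ∈ t then (1 : ℤ) else -1)) = 0 := by
  decide +kernel

theorem tri_compl : ∀ t ∈ tri, ∀ k ∈ range 6, k ∉ t → (range 6 \ t).erase k ∈ rp := by
  decide +kernel

theorem tri_nonempty : ∀ t ∈ tri, t.Nonempty := by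
  decide +kernel

theorem tri_mem_rp : ∀ t ∈ tri, t ∈ rp := by
  decide +kernel

/-- The purely algebraic contradiction. -/
theorem no_weights (c : ℕ → ℝ) (k0 : ℕ) (hk0 : k0 < 6) (hc : c k0 ≠ 0)
    (h : ∀ t ∈ tri, ∀ k ∈ range 6, k ∉ t →
      (c k = 0 ∧ (∑ i ∈ range 6, (if i ∈ t then (1 : ℝ) else -1) * c i) = 0) ∨
      (∑ i ∈ range 6, (if i ∈ t then (1 : ℝ) else -1) * c i) * c k < 0) : False := by
  set s : Finset ℕ → ℝ := fun t => ∑ i ∈ range 6, (if i ∈ t then (1 : ℝ) else -1) * c i with hs
  have hsum : ∑ t ∈ tri, s t = 0 := by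
    rw [hs, Finset.sum_comm]
    apply Finset.sum_eq_zero
    intro i hi
    rw [← Finset.sum_mul]
    have h1 := tri_count i hi
    have h2 : (∑ t ∈ tri, (if i ∈ t then (1 : ℝ) else -1)) =
        ((∑ t ∈ tri, (if i ∈ t then (1 : ℤ) else -1) : ℤ) : ℝ) := by
      push_cast
      rfl
    rw [h2, h1]
    simp
  have hpos : ∀ k ∈ range 6, 0 < c k * c k0 := by
    intro k hk
    obtain ⟨t, ht, h1, h2⟩ := tri_pair k0 (mem_range.2 hk0) k hk
    have h3 : s t * c k0 < 0 := by
      rcases h t ht k0 (mem_range.2 hk0) h1 with h3 | h3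
      · exact absurd h3.1 hc
      · exact h3
    have h4 : s t * c k < 0 := by
      rcases h t ht k hk h2 with h4 | h4
      · exfalso
        have : s t = 0 := h4.2
        rw [this, zero_mul] at h3
        exact lt_irrefl _ h3
      · exact h4
    have h5 : 0 < (s t * c k0) * (s t * c k) := mul_pos_of_neg_of_neg h3 h4
    have h6 : (s t * c k0) * (s t * c k) = (s t) ^ 2 * (c k * c k0) := by ring
    rw [h6] at h5
    by_contra hcon
    push Not at hcon
    have := mul_nonpos_of_nonneg_of_nonpos (sq_nonneg (s t)) hcon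
    linarith
  have hneg : ∀ t ∈ tri, s t * c k0 < 0 := by
    intro t ht
    have hex : ∃ k ∈ range 6, k ∉ t := by
      revert t
      decide +kernel
    obtain ⟨k, hk, hkt⟩ := hex
    have h1 := hpos k hk
    rcases h t ht k hk hkt with h2 | h2
    · exfalso
      rw [h2.1, zero_mul] at h1
      exact lt_irrefl _ h1
    · have h2' : s t * c k < 0 := h2
      have h3 : (s t * c k) * (c k * c k0) < 0 := mul_neg_of_neg_of_pos h2' h1
      have h4 : (s t * c k) * (c k * c k0) = (c k) ^ 2 * (s t * c k0) := by ring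
      rw [h4] at h3
      by_contra hcon
      push Not at hcon
      have := mul_nonneg (sq_nonneg (c k)) hcon
      linarith
  have hlt : ∑ t ∈ tri, s t * c k0 < 0 := by
    apply Finset.sum_neg' (fun t ht => (hneg t ht).le)
    exact ⟨{0, 1, 2}, by decide +kernel, hneg _ (by decide +kernel)⟩
  rw [← Finset.sum_mul, hsum, zero_mul] at hlt
  exact lt_irrefl _ hlt


theorem facet_ineq {d m : ℕ} (hm : 6 ≤ m) {P : Set (EuclideanSpace ℝ (Fin d))} (hP : P = -P)
    {f : ℕ → EuclideanSpace ℝ (Fin d)} (hf : Set.BijOn f (verts (sph m)) (P.extremePoints ℝ))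
    (hface : ∀ F : Finset ℕ, (∀ v ∈ F, v ∈ verts (sph m)) →
      (F ∈ sph m ↔ ∃ G : Set (EuclideanSpace ℝ (Fin d)), IsExposed ℝ P G ∧ G ≠ P ∧
        f '' (F : Set ℕ) = G ∩ P.extremePoints ℝ))
    (c : ℕ → ℝ) (hc : ∑ i ∈ range m, c i • f (2 * i) = 0)
    {t : Finset ℕ} (ht : t ∈ tri) {k : ℕ} (hk : k ∈ range 6) (hkt : k ∉ t) :
    (c k = 0 ∧ (∑ i ∈ range 6, (if i ∈ t then (1 : ℝ) else -1) * c i) = 0 ∧
      ∀ j ∈ range m \ range 6, c j = 0) ∨
      (∑ i ∈ range 6, (if i ∈ t then (1 : ℝ) else -1) * c i) * c k < 0 := by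
  set s : ℝ := ∑ i ∈ range 6, (if i ∈ t then (1 : ℝ) else -1) * c i with hs
  set a : ℝ := s + c k with ha
  set σ : ℝ := if 0 ≤ a then 1 else -1 with hσ
  have hσa : σ * a = |a| := by
    rw [hσ]
    split_ifs with h
    · rw [one_mul, abs_of_nonneg h]
    · push Not at h
      rw [abs_of_neg h]; ring
  have hσσ : σ * σ = 1 := by
    rw [hσ]; split_ifs <;> norm_num
  have hσabs : |σ| = 1 := by
    rw [hσ]; split_ifs <;> norm_num
  set Dp : Finset ℕ := (range m \ range 6).filter (fun j => 0 ≤ σ * c j) with hDp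
  set Dm : Finset ℕ := (range m \ range 6).filter (fun j => ¬ 0 ≤ σ * c j) with hDm
  set A : Finset ℕ := t ∪ Dp with hA
  set B : Finset ℕ := (range 6 \ t).erase k ∪ Dm with hB
  have ht6 : t ⊆ range 6 := tri_sub t ht
  have h6m : range 6 ⊆ range m := range_subset_range.2 hm
  have hAm : A ⊆ range m :=
    union_subset (ht6.trans h6m) ((filter_subset _ _).trans sdiff_subset)
  have hBm : B ⊆ range m :=
    union_subset ((erase_subset _ _).trans (sdiff_subset.trans h6m))
      ((filter_subset _ _).trans sdiff_subset)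
  have hA6 : A ∩ range 6 = t := by
    ext i
    simp only [hA, hDp, mem_inter, mem_union, mem_filter, mem_sdiff]
    constructor
    · rintro ⟨h | h, h'⟩
      · exact h
      · exact absurd h' h.1.2
    · intro h
      exact ⟨Or.inl h, ht6 h⟩
  have hB6 : B ∩ range 6 = (range 6 \ t).erase k := by
    ext i
    simp only [hB, hDm, mem_inter, mem_union, mem_filter, mem_sdiff, mem_erase]
    constructor
    · rintro ⟨h | h, h'⟩
      · exact h
      · exact absurd h' h.1.2
    · intro h
      exact ⟨Or.inl h, h.2.1⟩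
  have hAB : Disjoint A B := by
    rw [disjoint_left]
    intro i hi hi'
    simp only [hA, hB, hDp, hDm, mem_union, mem_filter, mem_sdiff, mem_erase] at hi hi'
    rcases hi with h | h
    · rcases hi' with h' | h'
      · exact h'.2.2 h
      · exact h'.1.2 (ht6 h)
    · rcases hi' with h' | h'
      · exact h.1.2 h'.2.1
      · exact h'.2 h.2
  have hF : enc A B ∈ sph m := by
    rw [mem_sph hm]
    refine ⟨enc_subset_range hAm hBm, ?_, ?_, ?_⟩
    · rw [ev_enc hAm, od_enc hBm]; exact hAB
    · rw [ev_enc hAm, mem_fam, hA6]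
      exact ⟨hAm, tri_mem_rp t ht⟩
    · rw [od_enc hBm, mem_fam, hB6]
      exact ⟨hBm, tri_compl t ht k hk hkt⟩
  have hFv : ∀ v ∈ enc A B, v ∈ verts (sph m) := by
    intro v hv
    rw [verts_sph hm]
    exact mem_range.1 (enc_subset_range hAm hBm hv)
  have hne : (enc A B).Nonempty := by
    obtain ⟨i, hi⟩ := tri_nonempty t ht
    exact ⟨2 * i, even_mem_enc.2 (mem_union_left _ hi)⟩
  obtain ⟨l, hl1, hl2⟩ := exists_functional hP hf hface hF hFv hne
  have hkA : k ∉ A := by
    intro h
    apply hkt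
    rw [← hA6]
    exact mem_inter.2 ⟨h, hk⟩
  have hkB : k ∉ B := by
    intro h
    have : k ∈ (range 6 \ t).erase k := by
      rw [← hB6]
      exact mem_inter.2 ⟨h, hk⟩
    exact (mem_erase.1 this).1 rfl
  have hanti : ∀ i, i < m → f (2 * i + 1) = -f (2 * i) := by
    intro i hi
    have := anti_neg hm hP hf hface (v := 2 * i) (by omega)
    rwa [anti_even] at this
  have hlA : ∀ i ∈ A, l (f (2 * i)) = 1 := fun i hi => hl1 _ (even_mem_enc.2 hi)
  have hlB : ∀ i ∈ B, l (f (2 * i)) = -1 := by
    intro i hi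
    have h1 := hl1 _ (odd_mem_enc.2 hi)
    rw [hanti i (mem_range.1 (hBm hi)), map_neg] at h1
    linarith
  have hkm : k < m := mem_range.1 (h6m hk)
  have hlk1 : l (f (2 * k)) < 1 := by
    apply hl2
    · rw [verts_sph hm, Set.mem_Iio]; omega
    · rw [even_mem_enc]; exact hkA
  have hlk2 : -1 < l (f (2 * k)) := by
    have h1 : l (f (2 * k + 1)) < 1 := by
      apply hl2
      · rw [verts_sph hm, Set.mem_Iio]; omega
      · rw [odd_mem_enc]; exact hkB
    rw [hanti k hkm, map_neg] at h1
    linarith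
  have hsum : ∑ i ∈ range m, c i * l (f (2 * i)) = 0 := by
    have h1 := congrArg l hc
    rw [map_sum, map_zero] at h1
    rw [← h1]
    apply Finset.sum_congr rfl
    intro i _
    rw [map_smul, smul_eq_mul]
  have hsplit : ∑ i ∈ range m \ range 6, c i * l (f (2 * i)) +
      ∑ i ∈ range 6, c i * l (f (2 * i)) = 0 := by
    rw [Finset.sum_sdiff h6m]; exact hsum
  have hdum : ∑ i ∈ range m \ range 6, c i * l (f (2 * i)) =
      σ * ∑ i ∈ range m \ range 6, |c i| := by
    rw [Finset.mul_sum]
    apply Finset.sum_congr rfl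
    intro i hi
    by_cases h : 0 ≤ σ * c i
    · rw [hlA i (mem_union_right _ (mem_filter.2 ⟨hi, h⟩)), mul_one]
      have h1 : |c i| = σ * c i := by
        rw [← abs_of_nonneg h, abs_mul, hσabs, one_mul]
      rw [h1, ← mul_assoc, hσσ, one_mul]
    · rw [hlB i (mem_union_right _ (mem_filter.2 ⟨hi, h⟩))]
      push Not at h
      have h1 : |c i| = -(σ * c i) := by
        rw [← abs_of_neg h, abs_mul, hσabs, one_mul]
      rw [h1, mul_neg, mul_neg, mul_one, ← mul_assoc, hσσ, one_mul]
  have hmain : ∑ i ∈ range 6, c i * l (f (2 * i)) = a + c k * l (f (2 * k)) := by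
    have h1 : ∑ i ∈ range 6, (c i * l (f (2 * i)) - (if i ∈ t then (1 : ℝ) else -1) * c i) =
        c k * l (f (2 * k)) + c k := by
      rw [Finset.sum_eq_single_of_mem k hk]
      · rw [if_neg hkt]; ring
      · intro i hi hik
        by_cases hit : i ∈ t
        · rw [hlA i (mem_union_left _ hit), if_pos hit]; ring
        · rw [hlB i (mem_union_left _ (mem_erase.2 ⟨hik, mem_sdiff.2 ⟨hi, hit⟩⟩)), if_neg hit]; ring
    rw [Finset.sum_sub_distrib] at h1
    rw [ha, hs]
    linarith
  have hnn : 0 ≤ ∑ i ∈ range m \ range 6, |c i| := Finset.sum_nonneg (fun i _ => abs_nonneg _)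
  have hkey : |a| + ∑ i ∈ range m \ range 6, |c i| = -(σ * (c k * l (f (2 * k)))) := by
    rw [hdum, hmain] at hsplit
    have h1 : σ * (σ * ∑ i ∈ range m \ range 6, |c i| + (a + c k * l (f (2 * k)))) = 0 := by
      rw [hsplit, mul_zero]
    have h2 : σ * (σ * ∑ i ∈ range m \ range 6, |c i| + (a + c k * l (f (2 * k)))) =
      (σ * σ) * ∑ i ∈ range m \ range 6, |c i| + σ * a + σ * (c k * l (f (2 * k))) := by ring
    rw [h2, hσσ, hσa, one_mul] at h1
    linarith
  by_cases hck : c k = 0
  · left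
    rw [hck, zero_mul, mul_zero, neg_zero] at hkey
    have h1 : |a| = 0 := by
      have := abs_nonneg a
      linarith
    have h2 : ∑ i ∈ range m \ range 6, |c i| = 0 := by
      have := abs_nonneg a
      linarith
    refine ⟨hck, ?_, ?_⟩
    · rw [abs_eq_zero, ha, hck, add_zero] at h1
      exact h1
    · intro j hj
      rw [Finset.sum_eq_zero_iff_of_nonneg (fun i _ => abs_nonneg _)] at h2
      exact abs_eq_zero.1 (h2 j hj)
  · right
    have hpos : 0 < |c k| := abs_pos.2 hck
    have h1 : |a| < |c k| := by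
      have h2 : -(σ * (c k * l (f (2 * k)))) ≤ |c k| * |l (f (2 * k))| := by
        calc -(σ * (c k * l (f (2 * k)))) ≤ |σ * (c k * l (f (2 * k)))| := neg_le_abs _
          _ = |c k| * |l (f (2 * k))| := by rw [abs_mul, hσabs, one_mul, abs_mul]
      have h3 : |l (f (2 * k))| < 1 := abs_lt.2 ⟨hlk2, hlk1⟩
      have h4 : |c k| * |l (f (2 * k))| < |c k| * 1 := mul_lt_mul_of_pos_left h3 hpos
      linarith
    have h5 : s = a - c k := by rw [ha]; ring
    rw [h5]
    have h6 : a * c k ≤ |a| * |c k| := by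
      rw [← abs_mul]; exact le_abs_self _
    have h7 : |a| * |c k| < |c k| * |c k| := mul_lt_mul_of_pos_right h1 hpos
    have h8 : |c k| * |c k| = c k * c k := abs_mul_abs_self _
    linarith [sub_mul a (c k) (c k)]

theorem sph_not_polytopal {n : ℕ} (hn : 4 ≤ n) (P : Set (EuclideanSpace ℝ (Fin (n + 1))))
    (hP : IsCSPolytope (n + 1) P) : ¬ IsBoundaryComplexOf (sph (n + 2)) P := by
  rintro ⟨f, hf, hface⟩
  have hm : 6 ≤ n + 2 := by omega
  obtain ⟨-, -, hsym⟩ := hP
  have hdep : ¬ LinearIndependent ℝ (fun i : Fin (n + 2) => f (2 * (i : ℕ))) := by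
    intro h
    have := h.fintype_card_le_finrank
    rw [Fintype.card_fin, finrank_euclideanSpace_fin] at this
    omega
  rw [Fintype.not_linearIndependent_iff] at hdep
  obtain ⟨g, hg, i0, hi0⟩ := hdep
  set c : ℕ → ℝ := fun i => if h : i < n + 2 then g ⟨i, h⟩ else 0 with hcdef
  have hcg : ∀ i : Fin (n + 2), c i = g i := by
    intro i
    simp [hcdef]
  have hc : ∑ i ∈ range (n + 2), c i • f (2 * i) = 0 := by
    rw [Finset.sum_range]
    rw [← hg]
    apply Finset.sum_congr rfl
    intro i _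
    rw [hcg]
  have hfac := fun (t : Finset ℕ) (ht : t ∈ tri) (k : ℕ) (hk : k ∈ range 6) (hkt : k ∉ t) =>
    facet_ineq hm hsym hf hface c hc ht hk hkt
  by_cases hex : ∃ k0, k0 < 6 ∧ c k0 ≠ 0
  · obtain ⟨k0, hk0, hck0⟩ := hex
    apply no_weights c k0 hk0 hck0
    intro t ht k hk hkt
    rcases hfac t ht k hk hkt with h | h
    · exact Or.inl ⟨h.1, h.2.1⟩
    · exact Or.inr h
  · push Not at hex
    have h3 : c 3 = 0 := hex 3 (by norm_num)
    rcases hfac {0, 1, 2} (by decide +kernel) 3 (by decide +kernel) (by decide +kernel) with h | h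
    · apply hi0
      rw [← hcg]
      by_cases h6 : (i0 : ℕ) < 6
      · exact hex _ h6
      · apply h.2.2
        rw [mem_sdiff, mem_range, mem_range]
        exact ⟨i0.2, h6⟩
    · rw [h3, mul_zero] at h
      exact lt_irrefl _ h

section sanity

/-- The signed unit vectors: `vec d (2 i)` is the `i`-th unit vector, `vec d (2 i + 1)` its
negative. -/
noncomputable def vec (d : ℕ) (v : ℕ) : EuclideanSpace ℝ (Fin d) :=
  WithLp.toLp 2 (fun j => if (j : ℕ) = v / 2 then (if v % 2 = 0 then 1 else -1) else 0)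

/-- The cross-polytope. -/
noncomputable def cross (d : ℕ) : Set (EuclideanSpace ℝ (Fin d)) :=
  convexHull ℝ (((range (2 * d)).image (vec d) : Finset (EuclideanSpace ℝ (Fin d))) :
    Set (EuclideanSpace ℝ (Fin d)))

/-- Its boundary complex. -/
def crossComplex (d : ℕ) : Set (Finset ℕ) := {F | F ⊆ range (2 * d) ∧ ∀ v ∈ F, anti v ∉ F}

theorem inner_vec {d v w : ℕ} (hv : v < 2 * d) :
    inner ℝ (vec d v) (vec d w) = if w = v then (1 : ℝ) else if w = anti v then -1 else 0 := by
  have hvd : v / 2 < d := by omega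
  have h1 : inner ℝ (vec d v) (vec d w) = ∑ j : Fin d,
      (if (j : ℕ) = v / 2 then (if v % 2 = 0 then (1 : ℝ) else -1) else 0) *
      (if (j : ℕ) = w / 2 then (if w % 2 = 0 then (1 : ℝ) else -1) else 0) := by
    rw [EuclideanSpace.inner_eq_star_dotProduct]
    simp only [vec, dotProduct, Pi.star_apply, star_trivial]
    apply Finset.sum_congr rfl
    intro j _
    ring
  rw [h1, Finset.sum_eq_single (⟨v / 2, hvd⟩ : Fin d)]
  · simp only [if_true]
    by_cases h2 : w / 2 = v / 2
    · rw [if_pos h2.symm]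
      rcases Nat.even_or_odd' v with ⟨i, rfl | rfl⟩
      · rw [anti_even]
        rcases Nat.even_or_odd' w with ⟨j, rfl | rfl⟩
        · have : j = i := by omega
          subst this
          simp
        · have : j = i := by omega
          subst this
          rw [if_pos (by omega), if_neg (by omega), if_neg (by omega), if_pos rfl]
          ring
      · rw [anti_odd]
        rcases Nat.even_or_odd' w with ⟨j, rfl | rfl⟩
        · have : j = i := by omega
          subst this
          rw [if_neg (by omega), if_pos (by omega), if_neg (by omega), if_pos rfl]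
          ring
        · have : j = i := by omega
          subst this
          rw [if_neg (by omega), if_pos rfl]
          ring
    · have h3 : ¬ (v / 2 = w / 2) := fun h => h2 h.symm
      rw [if_neg h3, mul_zero]
      rw [if_neg (fun h => h2 (by rw [h])), if_neg]
      intro h
      apply h2
      rw [h, anti]
      split_ifs <;> omega
  · intro b _ hb
    rw [if_neg, zero_mul]
    intro h
    exact hb (Fin.ext h)
  · intro h
    exact absurd (mem_univ _) h

theorem vec_anti (d v : ℕ) : vec d (anti v) = -vec d v := by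
  have h1 : anti v / 2 = v / 2 := by rw [anti]; split_ifs <;> omega
  ext j
  simp only [vec, PiLp.neg_apply, h1]
  by_cases h : (j : ℕ) = v / 2
  · simp only [h, if_true]
    rw [anti]
    by_cases h2 : v % 2 = 0
    · rw [if_pos h2, if_pos h2, if_neg (by omega)]
    · rw [if_neg h2, if_neg h2, if_pos (by omega)]; ring
  · simp [h]

theorem norm_vec {d v : ℕ} (hv : v < 2 * d) : ‖vec d v‖ = 1 := by
  have h := inner_vec (w := v) hv
  rw [if_pos rfl, real_inner_self_eq_norm_sq] at h
  nlinarith [norm_nonneg (vec d v)]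

theorem norm_le_of_mem_cross {d : ℕ} {x : EuclideanSpace ℝ (Fin d)} (hx : x ∈ cross d) :
    ‖x‖ ≤ 1 := by
  have h1 : cross d ⊆ Metric.closedBall 0 1 := by
    apply convexHull_min _ (convex_closedBall _ _)
    intro y hy
    rw [mem_coe, mem_image] at hy
    obtain ⟨v, hv, rfl⟩ := hy
    rw [mem_closedBall_zero_iff, norm_vec (mem_range.1 hv)]
  exact mem_closedBall_zero_iff.1 (h1 hx)

theorem vec_mem_cross {d v : ℕ} (hv : v < 2 * d) : vec d v ∈ cross d := by
  apply subset_convexHull
  rw [mem_coe, mem_image]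
  exact ⟨v, mem_range.2 hv, rfl⟩

theorem eq_vec_of_inner {d v : ℕ} (hv : v < 2 * d) {x : EuclideanSpace ℝ (Fin d)}
    (hx : x ∈ cross d) (h : 1 ≤ inner ℝ (vec d v) x) : x = vec d v := by
  have h1 := norm_le_of_mem_cross hx
  have h2 : ‖x - vec d v‖ ^ 2 = ‖x‖ ^ 2 - 2 * inner ℝ x (vec d v) + ‖vec d v‖ ^ 2 :=
    norm_sub_sq_real x (vec d v)
  rw [norm_vec hv, real_inner_comm] at h2
  have h3 : ‖x‖ ^ 2 ≤ 1 := by nlinarith [norm_nonneg x]
  have h4 : ‖x - vec d v‖ ^ 2 ≤ 0 := by linarith
  have h5 : ‖x - vec d v‖ = 0 := by nlinarith [norm_nonneg (x - vec d v)]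
  exact sub_eq_zero.1 (norm_eq_zero.1 h5)

theorem extreme_cross (d : ℕ) :
    (cross d).extremePoints ℝ = vec d '' (range (2 * d) : Set ℕ) := by
  apply Set.Subset.antisymm
  · intro x hx
    have := extremePoints_convexHull_subset hx
    rw [mem_coe, mem_image] at this
    obtain ⟨v, hv, rfl⟩ := this
    exact ⟨v, hv, rfl⟩
  · rintro _ ⟨v, hv, rfl⟩
    have hv' : v < 2 * d := mem_range.1 hv
    rw [mem_extremePoints]
    refine ⟨vec_mem_cross hv', ?_⟩
    rintro x1 hx1 x2 hx2 ⟨a, b, ha, hb, hab, hx⟩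
    have hle : ∀ x ∈ cross d, inner ℝ (vec d v) x ≤ 1 := by
      intro x hx
      calc inner ℝ (vec d v) x ≤ ‖vec d v‖ * ‖x‖ := real_inner_le_norm _ _
        _ ≤ 1 * 1 := by
            rw [norm_vec hv']
            exact mul_le_mul_of_nonneg_left (norm_le_of_mem_cross hx) zero_le_one
        _ = 1 := one_mul 1
    have h1 := hle x1 hx1
    have h2 := hle x2 hx2
    have h3 : a * inner ℝ (vec d v) x1 + b * inner ℝ (vec d v) x2 = 1 := by
      rw [← real_inner_smul_right, ← real_inner_smul_right, ← inner_add_right, hx,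
        inner_vec hv', if_pos rfl]
    constructor
    · apply eq_vec_of_inner hv' hx1
      nlinarith
    · apply eq_vec_of_inner hv' hx2
      nlinarith

theorem vec_injOn (d : ℕ) : Set.InjOn (vec d) (range (2 * d) : Set ℕ) := by
  intro v hv w hw h
  by_contra hne
  have h1 := inner_vec (w := w) (mem_range.1 hv)
  rw [if_neg (fun h => hne h.symm), ← h, real_inner_self_eq_norm_sq,
    norm_vec (mem_range.1 hv)] at h1
  split_ifs at h1 <;> norm_num at h1

theorem verts_crossComplex (d : ℕ) : verts (crossComplex d) = (range (2 * d) : Set ℕ) := by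
  ext v
  rw [verts, Set.mem_ofPred_eq, crossComplex, Set.mem_ofPred_eq, mem_coe]
  constructor
  · intro h
    exact h.1 (mem_singleton_self v)
  · intro h
    refine ⟨by simpa using h, ?_⟩
    intro w hw
    rw [mem_singleton] at *
    subst hw
    exact fun h => anti_ne w h.symm

theorem cross_symm (d : ℕ) : cross d = -cross d := by
  rw [cross, ← convexHull_neg]
  congr 1
  ext x
  rw [Set.mem_neg, mem_coe, mem_coe, mem_image, mem_image]
  have key : ∀ y : EuclideanSpace ℝ (Fin d), (∃ a ∈ range (2 * d), vec d a = y) →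
      ∃ a ∈ range (2 * d), vec d a = -y := by
    rintro y ⟨a, ha, rfl⟩
    refine ⟨anti a, ?_, vec_anti d a⟩
    rw [mem_range] at *
    rw [anti]
    split_ifs <;> omega
  constructor
  · exact key x
  · intro h
    have := key (-x) h
    rwa [neg_neg] at this

/-- The cross-polytope is a centrally symmetric polytope in the sense of the definition. -/
theorem cross_isCSPolytope {d : ℕ} (hd : 0 < d) : IsCSPolytope d (cross d) := by
  refine ⟨⟨_, rfl⟩, ?_, cross_symm d⟩
  have hne : (cross d).Nonempty := ⟨vec d 0, vec_mem_cross (by omega)⟩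
  rw [AffineSubspace.affineSpan_eq_top_iff_vectorSpan_eq_top_of_nonempty ℝ _ _ hne]
  rw [eq_top_iff]
  intro x _
  have hx : x = ∑ i : Fin d, x i • vec d (2 * (i : ℕ)) := by
    ext j
    simp [vec, Fin.val_inj]
  rw [hx]
  apply Submodule.sum_mem
  intro i _
  apply Submodule.smul_mem
  have h1 : vec d (2 * (i : ℕ)) = (1 / 2 : ℝ) • (vec d (2 * (i : ℕ)) -ᵥ vec d (2 * (i : ℕ) + 1)) := by
    have := vec_anti d (2 * (i : ℕ))
    rw [anti_even] at this
    rw [this, vsub_eq_sub, sub_neg_eq_add, ← two_smul ℝ, smul_smul]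
    norm_num
  rw [h1]
  apply Submodule.smul_mem
  apply vsub_mem_vectorSpan
  · exact vec_mem_cross (by have := i.2; omega)
  · exact vec_mem_cross (by have := i.2; omega)

/-- The boundary complex of the cross-polytope is the expected one. -/
theorem cross_isBoundaryComplexOf {d : ℕ} (hd : 0 < d) :
    IsBoundaryComplexOf (crossComplex d) (cross d) := by
  refine ⟨vec d, ?_, ?_⟩
  · rw [verts_crossComplex, extreme_cross]
    exact (vec_injOn d).bijOn_image
  · intro F hF
    rw [verts_crossComplex] at hF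
    have hF' : F ⊆ range (2 * d) := fun v hv => hF v hv
    constructor
    · rintro ⟨-, h2⟩
      rcases F.eq_empty_or_nonempty with rfl | hne
      · refine ⟨∅, ?_, ?_, ?_⟩
        · intro h; exact absurd h Set.not_nonempty_empty
        · intro h
          have := vec_mem_cross (d := d) (v := 0) (by omega)
          rw [← h] at this
          exact this
        · simp
      · have hval : ∀ w < 2 * d, inner ℝ (∑ v ∈ F, vec d v) (vec d w) =
            (if w ∈ F then (1 : ℝ) else if anti w ∈ F then -1 else 0) := by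
          intro w hw
          rw [sum_inner]
          by_cases h3 : w ∈ F
          · rw [if_pos h3, Finset.sum_eq_single w]
            · rw [inner_vec hw, if_pos rfl]
            · intro v hv hvw
              rw [inner_vec (mem_range.1 (hF' hv)), if_neg hvw.symm, if_neg]
              intro h
              exact h2 v hv (h ▸ h3)
            · exact fun h => absurd h3 h
          · rw [if_neg h3]
            by_cases h4 : anti w ∈ F
            · rw [if_pos h4, Finset.sum_eq_single (anti w)]
              · rw [inner_vec (mem_range.1 (hF' h4)), if_neg (anti_ne w), if_pos (anti_anti w).symm]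
              · intro v hv hvw
                rw [inner_vec (mem_range.1 (hF' hv)), if_neg, if_neg]
                · intro h
                  rw [h, anti_anti] at hvw
                  exact hvw rfl
                · rintro rfl
                  exact h3 hv
              · exact fun h => absurd h4 h
            · rw [if_neg h4]
              apply Finset.sum_eq_zero
              intro v hv
              rw [inner_vec (mem_range.1 (hF' hv)), if_neg, if_neg]
              · rintro rfl
                rw [anti_anti] at h4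
                exact h4 hv
              · rintro rfl
                exact h3 hv
        set l : StrongDual ℝ (EuclideanSpace ℝ (Fin d)) := innerSL ℝ (∑ v ∈ F, vec d v) with hl
        have hlv : ∀ w < 2 * d, l (vec d w) =
            (if w ∈ F then (1 : ℝ) else if anti w ∈ F then -1 else 0) := hval
        have hle : ∀ x ∈ cross d, l x ≤ 1 := by
          intro x hx
          have h3 : cross d ⊆ {x | l x ≤ 1} := by
            apply convexHull_min _ (convex_halfSpace_le l.toLinearMap.isLinear 1)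
            intro y hy
            rw [mem_coe, mem_image] at hy
            obtain ⟨v, hv, rfl⟩ := hy
            change l (vec d v) ≤ 1
            rw [hlv v (mem_range.1 hv)]
            split_ifs <;> norm_num
          exact h3 hx
        obtain ⟨v0, hv0⟩ := hne
        have hv0d := mem_range.1 (hF' hv0)
        have hv1 : l (vec d v0) = 1 := by rw [hlv v0 hv0d, if_pos hv0]
        refine ⟨{x | x ∈ cross d ∧ ∀ y ∈ cross d, l y ≤ l x}, ?_, ?_, ?_⟩
        · exact fun _ => ⟨l, rfl⟩
        · intro h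
          have h5 : vec d (anti v0) ∈ cross d := by
            rw [vec_anti]
            exact neg_mem_of_cs (cross_symm d) (vec_mem_cross hv0d)
          rw [← h] at h5
          have h6 := h5.2 _ (vec_mem_cross hv0d)
          rw [vec_anti, map_neg, hv1] at h6
          norm_num at h6
        · rw [extreme_cross]
          ext x
          constructor
          · rintro ⟨v, hv, rfl⟩
            have hvd := mem_range.1 (hF' hv)
            refine ⟨⟨vec_mem_cross hvd, ?_⟩, ⟨v, hF' hv, rfl⟩⟩
            intro y hy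
            rw [hlv v hvd, if_pos (mem_coe.1 hv)]
            exact hle y hy
          · rintro ⟨⟨h3, h4⟩, ⟨v, hv, rfl⟩⟩
            have hvd := mem_range.1 hv
            have h5 := h4 _ (vec_mem_cross hv0d)
            rw [hv1, hlv v hvd] at h5
            refine ⟨v, ?_, rfl⟩
            by_contra hcon
            rw [mem_coe] at hcon
            rw [if_neg hcon] at h5
            split_ifs at h5 <;> norm_num at h5
    · rintro ⟨G, hG, hGP, hGF⟩
      refine ⟨hF', ?_⟩
      intro v hv hv'
      have h3 : vec d v ∈ vec d '' (F : Set ℕ) := ⟨v, hv, rfl⟩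
      have h4 : vec d (anti v) ∈ vec d '' (F : Set ℕ) := ⟨anti v, hv', rfl⟩
      rw [hGF] at h3 h4
      rw [vec_anti] at h4
      exact no_antipodal (cross_symm d) hG hGP h3.1 h4.1

end sanity

/-- For every `n ≥ 4` there is a symmetric `n`-sphere with exactly `2n + 4` vertices that is not
isomorphic to the boundary complex of any centrally symmetric `(n+1)`-dimensional polytope. -/
theorem result : ∀ n : ℕ, 4 ≤ n →
    ∃ S : Set (Finset ℕ), IsSymmetricSphere n S ∧ (verts S).ncard = 2 * n + 4 ∧
      ∀ P : Set (EuclideanSpace ℝ (Fin (n + 1))), IsCSPolytope (n + 1) P →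
        ¬ IsBoundaryComplexOf S P := by
  intro n hn
  refine ⟨sph (n + 2), sph_symmetric hn, ?_, sph_not_polytopal hn⟩
  rw [verts_sph (by omega)]
  have : (Set.Iio (2 * (n + 2))) = ((range (2 * (n + 2)) : Finset ℕ) : Set ℕ) := by
    ext v; simp
  rw [this, Set.ncard_coe_finset, card_range]
  ring


end Pool.Agent.Results.MP_ca8007_co.SymmetricSpheres
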